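import Mathlib
import Pool.Agent.Lib.MP_50ef00_gt.Pos

/-!
# MP_50ef00_gt, module P1: collapses and relabellings induce homotopy equivalences
-/

namespace Pool.Agent.Lib.MP_50ef00_gt.H76

open scoped unitInterval

section collapse

variable {K L : Finset (Finset ℕ)} {s : Finset ℕ} {v : ℕ}

/-- minimal coordinate over `s` -/
noncomputable def mi (s : Finset ℕ) (hn : s.Nonempty) (x : ℕ → ℝ) : ℝ := s.inf' hn x

theorem continuous_mi (hn : s.Nonempty) : Continuous (mi s hn) := by
  unfold mi
  exact Continuous.finset_inf'_apply hn (fun i _ => continuous_apply i)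

/-- push `x` away from the free face `s` towards the opposite vertex `v` -/
noncomputable def push (s : Finset ℕ) (v : ℕ) (hn : s.Nonempty) (τ : ℝ) (x : ℕ → ℝ) : ℕ → ℝ :=
  fun i => x i - (if i ∈ s then τ * mi s hn x else 0)
    + (if i = v then (s.card : ℝ) * (τ * mi s hn x) else 0)

theorem push_zero (hn : s.Nonempty) (x : ℕ → ℝ) : push s v hn 0 x = x := by
  funext i
  simp [push]

theorem push_of_mi (hn : s.Nonempty) (τ : ℝ) (x : ℕ → ℝ) (h : mi s hn x = 0) :
    push s v hn τ x = x := by
  funext i
  simp [push, h]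

theorem continuous_push (hn : s.Nonempty) :
    Continuous (fun p : ℝ × (ℕ → ℝ) => push s v hn p.1 p.2) := by
  apply continuous_pi
  intro i
  have h1 : Continuous (fun p : ℝ × (ℕ → ℝ) => mi s hn p.2) := (continuous_mi hn).comp continuous_snd
  have h2 : Continuous (fun p : ℝ × (ℕ → ℝ) => p.2 i) := (continuous_apply i).comp continuous_snd
  unfold push
  refine (h2.sub ?_).add ?_
  · split_ifs
    · exact continuous_fst.mul h1
    · exact continuous_const
  · split_ifs
    · exact continuous_const.mul (continuous_fst.mul h1)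
    · exact continuous_const

theorem mi_nonneg (hn : s.Nonempty) {x : ℕ → ℝ} (hx : x ∈ Rz K) : 0 ≤ mi s hn x :=
  Finset.le_inf' hn _ fun i _ => hx.1 i

theorem mi_le (hn : s.Nonempty) (x : ℕ → ℝ) {i : ℕ} (hi : i ∈ s) : mi s hn x ≤ x i :=
  Finset.inf'_le _ hi

/-- if all coordinates over `s` are positive, the point lies in the simplex `s ∪ {v}` -/
theorem carrier (hn : s.Nonempty) (hv : v ∉ s)
    (hfree : ∀ u ∈ K, s ⊆ u → u = s ∨ u = insert v s) {x : ℕ → ℝ} (hx : x ∈ Rz K)
    (hm : 0 < mi s hn x) :
    (∀ i, i ∉ insert v s → x i = 0) ∧ ∑ i ∈ insert v s, x i = 1 := by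
  obtain ⟨_, u, hu, hux, hsum⟩ := hx
  have hsu : s ⊆ u := by
    intro i hi
    by_contra hni
    have := mi_le hn x hi
    rw [hux i hni] at this
    linarith
  rcases hfree u hu hsu with rfl | rfl
  · refine ⟨fun i hi => hux i fun h => hi (Finset.mem_insert_of_mem h), ?_⟩
    rw [Finset.sum_insert hv, hsum, hux v hv, zero_add]
  · exact ⟨hux, hsum⟩

theorem push_mem (hn : s.Nonempty) (hv : v ∉ s) (ht : insert v s ∈ K)
    (hfree : ∀ u ∈ K, s ⊆ u → u = s ∨ u = insert v s) {x : ℕ → ℝ} (hx : x ∈ Rz K)
    {τ : ℝ} (h0 : 0 ≤ τ) (h1 : τ ≤ 1) : push s v hn τ x ∈ Rz K := by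
  rcases (mi_nonneg hn hx).eq_or_lt with hm | hm
  · rw [push_of_mi hn τ x hm.symm]
    exact hx
  obtain ⟨hc, hsum⟩ := carrier hn hv hfree hx hm
  refine ⟨fun i => ?_, insert v s, ht, fun i hi => ?_, ?_⟩
  · have hA : 0 ≤ x i - (if i ∈ s then τ * mi s hn x else 0) := by
      split_ifs with hi
      · have := mi_le hn x hi
        nlinarith
      · simpa using hx.1 i
    have hB : (0 : ℝ) ≤ (if i = v then (s.card : ℝ) * (τ * mi s hn x) else 0) := by
      split_ifs
      · positivity
      · exact le_rfl
    unfold push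
    linarith
  · have h2 := hc i hi
    simp only [Finset.mem_insert, not_or] at hi
    simp [push, hi.1, hi.2, h2]
  · rw [Finset.sum_insert hv] at hsum ⊢
    have e1 : push s v hn τ x v = x v + (s.card : ℝ) * (τ * mi s hn x) := by
      simp [push, hv]
    have e2 : ∑ i ∈ s, push s v hn τ x i = ∑ i ∈ s, (x i - τ * mi s hn x) := by
      apply Finset.sum_congr rfl
      intro i hi
      have hne : i ≠ v := fun h => hv (h ▸ hi)
      simp [push, hi, hne]
    rw [e1, e2, Finset.sum_sub_distrib, Finset.sum_const, nsmul_eq_mul]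
    linarith

/-- a point of `|K|` with a vanishing coordinate over `s` lies in `|L|` -/
theorem mem_L (hK : IsComplex K) (hL : L = (K.erase s).erase (insert v s)) {y : ℕ → ℝ}
    (hy : y ∈ Rz K) {i : ℕ} (hi : i ∈ s) (hyi : y i = 0) : y ∈ Rz L := by
  obtain ⟨hnn, u, hu, huy, hsum⟩ := hy
  have hsum' : ∑ j ∈ u.erase i, y j = 1 := by
    rw [← hsum]
    by_cases h : i ∈ u
    · rw [← Finset.add_sum_erase u y h, hyi, zero_add]
    · rw [Finset.erase_eq_of_notMem h]
  have hne : (u.erase i).Nonempty := by
    rw [Finset.nonempty_iff_ne_empty]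
    intro h
    rw [h] at hsum'
    simp at hsum'
  refine ⟨hnn, u.erase i, ?_, ?_, hsum'⟩
  · rw [hL, Finset.mem_erase, Finset.mem_erase]
    refine ⟨?_, ?_, (hK u hu).2 _ (Finset.erase_subset _ _) hne⟩
    · intro h
      have : i ∈ u.erase i := by rw [h]; exact Finset.mem_insert_of_mem hi
      simp at this
    · intro h
      have : i ∈ u.erase i := by rw [h]; exact hi
      simp at this
  · intro j hj
    by_cases hji : j = i
    · rw [hji, hyi]
    · exact huy j fun h => hj (Finset.mem_erase.2 ⟨hji, h⟩)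

theorem push_one_mem (hK : IsComplex K) (hn : s.Nonempty) (hv : v ∉ s) (ht : insert v s ∈ K)
    (hfree : ∀ u ∈ K, s ⊆ u → u = s ∨ u = insert v s)
    (hL : L = (K.erase s).erase (insert v s)) {x : ℕ → ℝ} (hx : x ∈ Rz K) :
    push s v hn 1 x ∈ Rz L := by
  obtain ⟨i, hi, him⟩ := Finset.exists_mem_eq_inf' hn x
  have hne : i ≠ v := fun h => hv (h ▸ hi)
  refine mem_L hK hL (push_mem hn hv ht hfree hx zero_le_one le_rfl) hi ?_
  have : mi s hn x = x i := him
  simp [push, hi, hne, this]

theorem mi_of_mem_L (hn : s.Nonempty) (hfree : ∀ u ∈ K, s ⊆ u → u = s ∨ u = insert v s)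
    (hL : L = (K.erase s).erase (insert v s)) {x : ℕ → ℝ} (hx : x ∈ Rz L) : mi s hn x = 0 := by
  by_contra hne
  have hm : 0 < mi s hn x := lt_of_le_of_ne (mi_nonneg hn hx) (Ne.symm hne)
  obtain ⟨_, u, hu, hux, hsum⟩ := hx
  have hsu : s ⊆ u := by
    intro i hi
    by_contra hni
    have := mi_le hn x hi
    rw [hux i hni] at this
    linarith
  rw [hL, Finset.mem_erase, Finset.mem_erase] at hu
  rcases hfree u hu.2.2 hsu with h | h
  · exact hu.2.1 h
  · exact hu.1 h

end collapse

theorem he_of_collapse (K L : Finset (Finset ℕ)) (hK : IsComplex K) (h : Collapse K L) :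
    HE K L := by
  obtain ⟨s, t, hs, ht, hst, hcard, hfree, hL⟩ := h
  obtain ⟨v, hv, rfl⟩ : ∃ v, v ∉ s ∧ insert v s = t := by
    have h1 : (t \ s).card = 1 := by
      rw [Finset.card_sdiff_of_subset hst]; omega
    obtain ⟨v, hv⟩ := Finset.card_eq_one.1 h1
    have hvt : v ∈ t \ s := by rw [hv]; simp
    refine ⟨v, (Finset.mem_sdiff.1 hvt).2, ?_⟩
    rw [Finset.insert_eq, ← hv, Finset.sdiff_union_of_subset hst]
  have hn : s.Nonempty := (hK s hs).1
  have hLK : L ⊆ K := by
    rw [hL]
    exact (Finset.erase_subset _ _).trans (Finset.erase_subset _ _)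
  let r : C(Rz K, Rz L) :=
    { toFun := fun x => ⟨push s v hn 1 x.1, push_one_mem hK hn hv ht hfree hL x.2⟩
      continuous_toFun := by
        apply Continuous.subtype_mk
        exact (continuous_push hn).comp (continuous_const.prodMk continuous_subtype_val) }
  refine ⟨⟨r, incl hLK, ?_, ?_⟩⟩
  · refine ContinuousMap.Homotopic.symm ⟨⟨⟨fun p => ⟨push s v hn (p.1 : ℝ) p.2.1,
      push_mem hn hv ht hfree p.2.2 p.1.2.1 p.1.2.2⟩, ?_⟩, ?_, ?_⟩⟩
    · apply Continuous.subtype_mk
      exact (continuous_push hn).comp ((continuous_subtype_val.comp continuous_fst).prodMk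
        (continuous_subtype_val.comp continuous_snd))
    · intro x
      apply Subtype.ext
      simp [push_zero]
    · intro x
      apply Subtype.ext
      simp [r, incl]
  · have : r.comp (incl hLK) = ContinuousMap.id _ := by
      ext x : 1
      apply Subtype.ext
      exact push_of_mi hn 1 x.1 (mi_of_mem_L hn hfree hL x.2)
    rw [this]

/-- P1a -/
theorem collapseHE : CollapseHEStatement := fun K L hK _ h => he_of_collapse K L hK h

theorem HE.refl (K : Finset (Finset ℕ)) : HE K K := ⟨ContinuousMap.HomotopyEquiv.refl _⟩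

theorem HE.symm {K L : Finset (Finset ℕ)} (h : HE K L) : HE L K := ⟨h.some.symm⟩

theorem HE.trans {K L M : Finset (Finset ℕ)} (h : HE K L) (h' : HE L M) : HE K M :=
  ⟨h.some.trans h'.some⟩

/-- chains of collapses -/
theorem he_of_reflTransGen {K L : Finset (Finset ℕ)}
    (h : Relation.ReflTransGen CollapseStep K L) : HE K L := by
  induction h with
  | refl => exact HE.refl K
  | tail _ h ih => exact HE.trans ih (he_of_collapse _ _ h.1 h.2.2)

/-- P1b -/
theorem relabelHE : RelabelHEStatement := by
  rintro K L _ ⟨f, rfl⟩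
  have key : ∀ (K : Finset (Finset ℕ)) (f : Equiv.Perm ℕ) (x : ℕ → ℝ), x ∈ Rz K →
      (fun i => x (f.symm i)) ∈ Rz (K.image (Finset.image f)) := by
    intro K f x hx
    obtain ⟨hnn, u, hu, hux, hsum⟩ := hx
    refine ⟨fun i => hnn _, u.image f, Finset.mem_image_of_mem _ hu, fun i hi => hux _ ?_, ?_⟩
    · intro h
      exact hi (Finset.mem_image.2 ⟨f.symm i, h, by simp⟩)
    · rw [Finset.sum_image (fun a _ b _ h => f.injective h)]
      simpa using hsum
  have key2 : ∀ x : ℕ → ℝ, x ∈ Rz (K.image (Finset.image f)) → (fun i => x (f i)) ∈ Rz K := by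
    intro x hx
    have h := key _ f.symm x hx
    have h2 : (K.image (Finset.image f)).image (Finset.image f.symm) = K := by
      rw [Finset.image_image]
      conv_rhs => rw [← Finset.image_id (s := K)]
      apply Finset.image_congr
      intro u _
      simp [Function.comp_apply, Finset.image_image]
    rw [h2] at h
    simpa using h
  refine ⟨Homeomorph.toHomotopyEquiv ?_⟩
  exact
    { toFun := fun x => ⟨fun i => x.1 (f.symm i), key K f x.1 x.2⟩
      invFun := fun x => ⟨fun i => x.1 (f i), key2 x.1 x.2⟩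
      left_inv := by
        intro x
        apply Subtype.ext
        funext i
        simp
      right_inv := by
        intro x
        apply Subtype.ext
        funext i
        simp
      continuous_toFun := by
        apply Continuous.subtype_mk
        apply continuous_pi
        intro i
        exact (continuous_apply _).comp continuous_subtype_val
      continuous_invFun := by
        apply Continuous.subtype_mk
        apply continuous_pi
        intro i
        exact (continuous_apply _).comp continuous_subtype_val }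

end Pool.Agent.Lib.MP_50ef00_gt.H76
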